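import Pool.Agent.MP_5c28a4_al.H8S.Spec

/-!
Section S5: abelian normal subgroups and nilpotent normal subgroups.
-/

set_option autoImplicit false

namespace Pool.Agent.MP_5c28a4_al.H89S.StA

open scoped commutatorElement

namespace StU

variable {N : Type} [Group N]

lemma cm_mem {B : Subgroup N} (hB : B.Normal) (g : N) {b : N} (hb : b ∈ B) : ⁅g, b⁆ ∈ B :=
  B.mul_mem (hB.conj_mem b hb g) (B.inv_mem hb)

lemma cm_mul {B : Subgroup N} (hB : B.Normal) (hc : Cm B B) (g : N) {x y : N} (hx : x ∈ B)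
    (hy : y ∈ B) : ⁅g, x * y⁆ = ⁅g, x⁆ * ⁅g, y⁆ := by
  have h1 : ⁅g, x * y⁆ = ⁅g, x⁆ * (x * ⁅g, y⁆) * x⁻¹ := by simp only [commutatorElement_def]; group
  rw [h1, hc x hx _ (cm_mem hB g hy)]
  group

/-- commutator with a fixed element -/
def ψ {B : Subgroup N} (hB : B.Normal) (hc : Cm B B) (g : N) : B →* N :=
  MonoidHom.mk' (fun x => ⁅g, (x : N)⁆) fun x y => cm_mul hB hc g x.2 y.2

lemma cm_pow {B : Subgroup N} (hB : B.Normal) (hc : Cm B B) (g : N) {x : N} (hx : x ∈ B) (k : ℕ) :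
    ⁅g, x ^ k⁆ = ⁅g, x⁆ ^ k := map_pow (ψ hB hc g) ⟨x, hx⟩ k

lemma pow_mem_range {B : Subgroup N} (hB : B.Normal) (hc : Cm B B) (z : N) {b : N} (hb : b ∈ B)
    (k : ℕ) : ⁅z ^ k, b⁆ ∈ (ψ hB hc z).range := by
  induction k with
  | zero => simp
  | succ k ih =>
    have h1 : ⁅z ^ (k + 1), b⁆ = ⁅z, z ^ k * b * (z ^ k)⁻¹⁆ * ⁅z ^ k, b⁆ := by
      simp only [commutatorElement_def, pow_succ']; group
    rw [h1]
    exact Subgroup.mul_mem _ ⟨⟨_, hB.conj_mem b hb _⟩, rfl⟩ ih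

lemma pow_form {B : Subgroup N} (hB : B.Normal) (hc : Cm B B) (z : N) (L : ℕ) {b : N} (hb : b ∈ B)
    (k : ℕ) : ∃ x ∈ (ψ hB hc z).range, ⁅(z ^ L) ^ k, b⁆ = ⁅z ^ L, x⁆ * ⁅z ^ L, b⁆ ^ k := by
  have h0 : ∀ x ∈ (ψ hB hc z).range, x ∈ B := by
    rintro _ ⟨x, rfl⟩
    exact cm_mem hB z x.2
  induction k with
  | zero => exact ⟨1, Subgroup.one_mem _, by simp⟩
  | succ k ih =>
    obtain ⟨x, h1, h2⟩ := ih
    have h3 : ⁅(z ^ L) ^ k, b⁆ ∈ (ψ hB hc z).range := pow_mul z L k ▸ pow_mem_range hB hc z hb _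
    refine ⟨_, Subgroup.mul_mem _ h3 h1, ?_⟩
    have h4 : ⁅(z ^ L) ^ (k + 1), b⁆ = ⁅z ^ L, ⁅(z ^ L) ^ k, b⁆ * b⁆ * ⁅(z ^ L) ^ k, b⁆ := by
      generalize z ^ L = w
      simp only [commutatorElement_def, pow_succ']; group
    rw [h4, cm_mul hB hc _ (h0 _ h3) hb, cm_mul hB hc _ (h0 _ h3) (h0 _ h1), pow_succ']
    nth_rewrite 2 [h2]
    rw [mul_assoc, mul_assoc, ← mul_assoc ⁅z ^ L, b⁆,
      hc _ (cm_mem hB _ hb) _ (cm_mem hB _ (h0 _ h1)), mul_assoc]

/-- the case where the powers are central -/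
lemma case (hF : BFin) {p : ℕ} {u : FF →₀ ℤ} {n L : ℕ} (C : Cx p u n L) (e : ℕ) {A : Type}
    [AddCommGroup A] {ρ : Representation ℤ N A} (h1 : Group.FG N) (h2 : Group.IsSolvable N)
    (h3 : Ok p u ρ) {B : Subgroup N} (hB : B.Normal) (hc : Cm B B)
    (h4 : ∀ b ∈ B, ∀ z ∈ Del N (p * L) e, ⁅z, b ^ p⁆ = 1) :
    ∃ t, Nil ρ (⁅B, Del N (p * L) (e + 1)⁆ : Subgroup N) t := by
  obtain ⟨T, h5, h6⟩ := hF.pwGen N (Del N (p * L) e) (p * L)
    (hF.del N (p * L) (e + 1) h2 h1 (Nat.mul_pos C.prime.pos C.pos)).2.2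
  have h0 : ∀ z, ∀ x ∈ (ψ hB hc z).range, x ∈ B := by
    rintro z _ ⟨x, rfl⟩
    exact cm_mem hB z x.2
  have h7 := nil_biUnion (ρ := ρ) T (fun z => {x | ∃ b ∈ (ψ hB hc z).range, x = ⁅z ^ L, b⁆}) B hc
    (n := n) (by rintro z - _ ⟨b, hb, rfl⟩; exact cm_mem hB _ (h0 z b hb)) fun z hz => by
      refine C.su N A ρ h3 _ z (fun x hx y hy => hc x (h0 z x hx) y (h0 z y hy)) ?_ ?_
      · rintro _ ⟨x, rfl⟩
        exact (cm_pow hB hc z x.2 p).symm.trans (h4 x x.2 z (h5 z hz))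
      · rintro _ ⟨x, rfl⟩
        refine ⟨⟨⟨_, hB.conj_mem x x.2 z⟩, ?_⟩, ⟨⟨_, hB.conj_mem x x.2 z⁻¹⟩, ?_⟩⟩ <;>
        · simp only [ψ, MonoidHom.mk'_apply, commutatorElement_def]
          group
  refine ⟨_, h7.closure.mono ?_ le_rfl⟩
  rw [Subgroup.commutator_comm, Del, h6]
  refine comm_closure _ B _ ?_
  rintro _ ⟨z, hz, rfl⟩ b hb
  obtain ⟨x, h8, h9⟩ := pow_form hB hc z L hb p
  rw [← cm_pow hB hc _ hb, h4 b hb _ (Subgroup.pow_mem _ (h5 z hz) L), mul_one, ← pow_mul,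
    mul_comm L p] at h9
  exact Subgroup.subset_closure (Set.mem_iUnion₂.2 ⟨z, hz, x, h8, h9⟩)

end StU

theorem upr (hF : BFin) : SUp := by
  intro p u n L C e
  induction e with
  | zero =>
    intro N A _ _ ρ _ _ _ B hB _ h
    refine ⟨1, nil_one fun s hs => ?_⟩
    have h1 : s = 1 := by simpa using h s (Subgroup.commutator_le_left _ _ hs)
    rw [h1, map_one]
  | succ e ih =>
    intro N A _ _ ρ h1 h2 h3 B hB hc h
    have n1 := hF.pwNormal N B p hB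
    have n2 := (hF.del N (p * L) e h2 h1 (Nat.mul_pos C.prime.pos C.pos)).1
    obtain ⟨t, ht⟩ := ih N A ρ h1 h2 h3 (pw B p) n1
      (fun x hx y hy => hc x (pw_le _ _ hx) y (pw_le _ _ hy)) fun b hb => by
        induction hb using Subgroup.closure_induction with
        | mem x hx =>
          obtain ⟨y, hy, rfl⟩ := hx
          rw [← pow_mul, ← pow_succ', h y hy]
        | one => simp
        | mul x y hx hy k1 k2 =>
          rw [Commute.mul_pow (hc x (pw_le _ _ hx) y (pw_le _ _ hy)), k1, k2, one_mul]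
        | inv x _ k1 => rw [inv_pow, k1, inv_one]
    refine red1 _ ⁅pw B p, Del N (p * L) e⁆ h3 ht fun A _ σ h4 => ?_
    have hs := QuotientGroup.mk'_surjective ⁅pw B p, Del N (p * L) e⁆
    rw [Subgroup.map_commutator, hF.delMap _ _ _ _ _ hs]
    refine StU.case hF C e (fg_of_surj h1 _ hs) (solv_of_surj h2 _ hs) h4 (hB.map _ hs) ?_ ?_
    · rintro _ ⟨x, hx, rfl⟩ _ ⟨y, hy, rfl⟩
      rw [← map_mul, ← map_mul, hc x hx y hy]
    · rw [← hF.delMap _ _ _ _ _ hs]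
      rintro _ ⟨b, hb, rfl⟩ _ ⟨z, hz, rfl⟩
      rw [← map_pow, ← map_commutatorElement, QuotientGroup.mk'_apply, QuotientGroup.eq_one_iff,
        Subgroup.commutator_comm]
      exact Subgroup.commutator_mem_commutator hz (pow_mem_pw hb p)

theorem nc (hF : BFin) (h : SNC1) : SNC := by
  intro p u n L C e
  let M : ℕ → ℕ → Prop := fun j s => ∀ (N A : Type) [Group N] [AddCommGroup A]
    (ρ : Representation ℤ N A), Group.FG N → Group.IsSolvable N → Ok p u ρ →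
    ∀ P : Subgroup N, P.Normal → (∀ x ∈ P, x ^ p ^ e = 1) →
    (∀ j, LG (itc P (Del N (p * L) (e + 1)) j)) → mu P j (p ^ s) = ⊥ →
    ∃ k t, Nil ρ (itc P (Del N (p * L) (e + 1)) k) t
  have step : ∀ j s, M j s → M j (s + 1) := by
    intro j s ih N A _ _ ρ h1 h2 h3 P hP h4 h5 h6
    have n1 := (hF.del N (p * L) (e + 1) h2 h1 (Nat.mul_pos C.prime.pos C.pos)).1
    obtain ⟨t, ht⟩ := h p u n L C e j s N A ρ h1 h2 h3 P hP h4 (h5 0) h6
    have n2 := mu_normal hF ⁅P, Del N (p * L) (e + 1)⁆ j (p ^ s)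
    obtain ⟨_, ⟨k, rfl⟩, t', h7⟩ := red (Set.range (itc P (Del N (p * L) (e + 1)))) (fun _ => True)
      (by
        rintro _ ⟨a, rfl⟩ _ ⟨b, rfl⟩
        exact ⟨_, ⟨max a b, rfl⟩, itc_anti _ _ (le_max_left a b), itc_anti _ _ (le_max_right a b)⟩)
      _ h3 ht fun A _ σ h7 => by
        have hs := QuotientGroup.mk'_surjective (mu ⁅P, Del N (p * L) (e + 1)⁆ j (p ^ s))
        have h8 : ∀ k, itc (Subgroup.map (QuotientGroup.mk' _) ⁅P, Del N (p * L) (e + 1)⁆)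
            (Del (N ⧸ mu ⁅P, Del N (p * L) (e + 1)⁆ j (p ^ s)) (p * L) (e + 1)) k =
            (itc P (Del N (p * L) (e + 1)) (k + 1)).map (QuotientGroup.mk' _) := fun k => by
          rw [← hF.delMap _ _ _ _ _ hs, ← itc_map, itc_succ']
        obtain ⟨k, t', h9⟩ := ih _ A σ (fg_of_surj h1 _ hs) (solv_of_surj h2 _ hs) h7
          (Subgroup.map (QuotientGroup.mk' _) ⁅P, Del N (p * L) (e + 1)⁆)
          (Subgroup.Normal.map inferInstance _ hs)
          (by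
            rintro _ ⟨x, hx, rfl⟩
            rw [← map_pow, h4 x (Subgroup.commutator_le_left _ _ hx), map_one])
          (fun k => by rw [h8]; exact (h5 _).map _ hs)
          (by rw [← mu_map hF, QuotientGroup.map_mk'_self])
        rw [h8] at h9
        exact ⟨_, ⟨k + 1, rfl⟩, t', fun J hJ _ => h9.mono (Subgroup.map_mono hJ) le_rfl⟩
    exact ⟨k, t', h7 _ le_rfl trivial⟩
  have one : ∀ {N : Type} [Group N] {P : Subgroup N} {j : ℕ}, mu P j (p ^ 0) = ⊥ →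
      P.lowerCentralSeries j = ⊥ := fun {N} _ {P} {j} h1 => le_bot_iff.1 fun x hx => by
    have h2 : x ^ p ^ 0 ∈ mu P j (p ^ 0) := Subgroup.mem_sup_left (pow_mem_pw hx _)
    rwa [h1, pow_zero, pow_one] at h2
  have all : ∀ j s, M j s := by
    intro j
    induction j with
    | zero =>
      intro s
      induction s with
      | succ s ih => exact step _ _ ih
      | zero =>
        intro N A _ _ ρ _ _ _ P _ _ _ h6
        refine ⟨0, 1, nil_one fun x hx => ?_⟩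
        rw [Subgroup.mem_bot.1 ((one h6).le hx), map_one]
    | succ j ihj =>
      intro s
      induction s with
      | succ s ih => exact step _ _ ih
      | zero =>
        intro N A _ _ ρ h1 h2 h3 P hP h4 h5 h6
        refine ihj e N A ρ h1 h2 h3 P hP h4 h5 (le_bot_iff.1 (sup_le (pw_le_iff.2 fun y hy => ?_)
          (one h6).le))
        rw [h4 y (lcs_le P j hy)]
        exact Subgroup.one_mem _
  intro c N A _ _ ρ h1 h2 h3 P hP h4 h5 h6
  exact all c 0 N A ρ h1 h2 h3 P hP h4 h5 (le_bot_iff.1 (sup_le ((pw_le _ _).trans h6.le)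
    ((P.lowerCentralSeries_antitone (Nat.le_succ c)).trans h6.le)))

end Pool.Agent.MP_5c28a4_al.H89S.StA
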